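import Mathlib

/-!
# Repeated blocks followed by the digit 1 that are never prime, in every base

In base `b`, write `n` `r` times in a row and append the digit `1`. With `B = b ^ j ≥ 3`, `h ≥ 1` and
`G = 1 + B ^ 2 + ... + B ^ (2 h - 2)` the number `n = B ^ 2 (B ^ (2 h) + 2 G) ^ 2 / b` has exactly
`2 j (2 h + 1)` digits, is not a power of `b`, is not itself a repeated block, and all the numbers
`n n ... n 1` are composite.
-/

set_option autoImplicit false

namespace Pool.Agent.Results.MP_842c30_nt.EveryBase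

open Finset

/-- The number whose expansion in base `b` is that of `w`, written `k` times in a row. -/
def C (b w k : ℕ) : ℕ := w * ∑ i ∈ range k, b ^ ((Nat.digits b w).length * i)

/-- `C b n r` followed by the digit `1`. -/
def N (b n r : ℕ) : ℕ := b * C b n r + 1

/-- `1 + B ^ 2 + ... + B ^ (2 h - 2)` -/
def G (B h : ℕ) : ℕ := ∑ i ∈ range h, B ^ (2 * i)

/-- `n` is not the expansion of a shorter number written several times in a row. -/
def Aperiodic (b n : ℕ) : Prop := ∀ w k : ℕ, 2 ≤ k → n ≠ C b w k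

lemma geo (B h : ℕ) : B ^ 2 * G B h + 1 = B ^ (2 * h) + G B h := by
  induction h with
  | zero => simp [G]
  | succ h ih =>
    have e : G B (h + 1) = G B h + B ^ (2 * h) := by simp [G, sum_range_succ]
    rw [e, show 2 * (h + 1) = 2 * h + 2 by ring, pow_add]
    nlinarith [ih]

lemma G_pos {B h : ℕ} (hh : 1 ≤ h) : 1 ≤ G B h := by
  obtain ⟨h', rfl⟩ := Nat.exists_eq_add_of_le' hh
  have : G B (h' + 1) = ∑ i ∈ range h', B ^ (2 * (i + 1)) + 1 := by
    simp [G, sum_range_succ']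
  omega

lemma G_mod (B h : ℕ) (hB : 1 ≤ B) : ∃ q : ℕ, G B h = h + (B ^ 2 - 1) * q := by
  induction h with
  | zero => exact ⟨0, by simp [G]⟩
  | succ h ih =>
    obtain ⟨q, hq⟩ := ih
    have e : G B (h + 1) = G B h + B ^ (2 * h) := by simp [G, sum_range_succ]
    have h1 : 1 ≤ B ^ 2 := Nat.one_le_pow _ _ hB
    have h2 : (B ^ 2 - 1) ∣ (B ^ 2) ^ h - 1 := by
      have := Nat.sub_dvd_pow_sub_pow (B ^ 2) 1 h
      simpa using this
    obtain ⟨q', hq'⟩ := h2
    have h3 : 1 ≤ (B ^ 2) ^ h := Nat.one_le_pow _ _ h1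
    refine ⟨q + q', ?_⟩
    rw [e, pow_mul, hq]
    have : (B ^ 2) ^ h = 1 + (B ^ 2 - 1) * q' := by omega
    rw [this]
    ring

/-- the side of the square `b n` -/
def sd (B h : ℕ) : ℕ := B * (B ^ (2 * h) + 2 * G B h)

/-- the second square -/
def td (B h : ℕ) : ℕ := 1 + 2 * B ^ 2 * G B h

lemma squares (B h : ℕ) : sd B h ^ 2 + 1 = td B h ^ 2 + B ^ (2 * (2 * h + 1)) := by
  have e : B ^ (2 * (2 * h + 1)) = B ^ 2 * (B ^ (2 * h)) ^ 2 := by ring
  rw [e]
  unfold sd td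
  have g := geo B h
  generalize B ^ (2 * h) = P at *
  generalize G B h = g' at *
  zify at g ⊢
  linear_combination (-4 : ℤ) * B ^ 2 * g' * g

lemma sd_eq (B h : ℕ) : sd B h = B ^ (2 * h + 1) + 2 * B * G B h := by
  unfold sd
  ring

lemma four_sd {B h : ℕ} (hB : 3 ≤ B) : 4 * sd B h ≤ 5 * B ^ (2 * h + 1) := by
  rw [sd_eq, pow_succ]
  have g := geo B h
  have h9 : 9 ≤ B ^ 2 := by nlinarith
  have h8 : 8 * G B h ≤ B ^ (2 * h) := by nlinarith
  nlinarith [Nat.mul_le_mul_left B h8]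

lemma sd_gt {B h : ℕ} (hB : 3 ≤ B) (hh : 1 ≤ h) : B ^ (2 * h + 1) < sd B h := by
  rw [sd_eq]
  have := G_pos (B := B) hh
  have : 0 < 2 * B * G B h := by positivity
  omega

/-- the geometric sum in base `Q` -/
lemma geomQ (Q r : ℕ) : Q * ∑ i ∈ range r, Q ^ i + 1 = Q ^ r + ∑ i ∈ range r, Q ^ i := by
  induction r with
  | zero => simp
  | succ r ih =>
    rw [sum_range_succ, pow_succ]
    nlinarith [ih]

/-- The factorisation. -/
lemma factor {s t Q y r : ℕ} (hQ : s ^ 2 + 1 = t ^ 2 + Q) (hy : Q ^ r = y ^ 2) (hty : t ≤ s * y)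
    (hQ1 : 1 ≤ Q) :
    (Q - 1) * (s ^ 2 * ∑ i ∈ range r, Q ^ i + 1) = (s * y - t) * (s * y + t) := by
  have g := geomQ Q r
  rw [hy] at g
  generalize ∑ i ∈ range r, Q ^ i = S at *
  zify [hQ1, hty]
  zify at hQ g
  linear_combination ((s : ℤ) ^ 2) * g - hQ

lemma composite {B h r : ℕ} (hB : 3 ≤ B) (hh : 1 ≤ h) (hr : 1 ≤ r) :
    (B ^ (2 * (2 * h + 1)) - 1) *
        (sd B h ^ 2 * ∑ i ∈ range r, (B ^ (2 * (2 * h + 1))) ^ i + 1) =
      (sd B h * B ^ ((2 * h + 1) * r) - td B h) * (sd B h * B ^ ((2 * h + 1) * r) + td B h) ∧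
    ¬ (sd B h ^ 2 * ∑ i ∈ range r, (B ^ (2 * (2 * h + 1))) ^ i + 1).Prime := by
  obtain ⟨r', rfl⟩ := Nat.exists_eq_add_of_le' hr
  have hG := G_pos (B := B) hh
  have hgt := sd_gt (h := h) hB hh
  set s := sd B h with hs
  set t := td B h with ht
  set E := B ^ (2 * h + 1) with hE
  set z := B ^ ((2 * h + 1) * r') with hz
  have hz1 : 1 ≤ z := Nat.one_le_pow _ _ (by omega)
  have hE27 : 27 ≤ E := by
    have h3 : 3 ^ 3 ≤ B ^ 3 := Nat.pow_le_pow_left hB 3
    have h4 : B ^ 3 ≤ B ^ (2 * h + 1) := Nat.pow_le_pow_right (by omega) (by omega)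
    have h5 : (3 : ℕ) ^ 3 = 27 := by norm_num
    omega
  have hEB : B * 9 ≤ E := by
    have h4 : B ^ 3 ≤ B ^ (2 * h + 1) := Nat.pow_le_pow_right (by omega) (by omega)
    have : B * 9 ≤ B ^ 3 := by nlinarith [Nat.pow_le_pow_left hB 2]
    omega
  have hy : B ^ ((2 * h + 1) * (r' + 1)) = E * z := by rw [hE, hz, ← pow_add]; congr 1; ring
  have hQ : s ^ 2 + 1 = t ^ 2 + B ^ (2 * (2 * h + 1)) := squares B h
  have hQr : (B ^ (2 * (2 * h + 1))) ^ (r' + 1) = (E * z) ^ 2 := by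
    rw [← hy, ← pow_mul, ← pow_mul]; congr 1; ring
  -- `t < s (s - E)`
  have hst : t < s * (s - E) := by
    have e1 : s - E = 2 * B * G B h := by rw [hs, sd_eq]; omega
    have e2 : t = 1 + B * (2 * B * G B h) := by rw [ht]; unfold td; ring
    rw [e1, e2]
    have : 1 ≤ 2 * B * G B h := by nlinarith
    nlinarith
  have hts : t ≤ s * (E * z) := by
    have h1 : t ≤ s * E := by
      have e2 : t = 1 + B * (2 * B * G B h) := by rw [ht]; unfold td; ring
      have e1 : s = E + 2 * B * G B h := by rw [hs, sd_eq]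
      rw [e2, e1]
      nlinarith
    calc t ≤ s * E := h1
      _ ≤ s * (E * z) := Nat.mul_le_mul_left _ (Nat.le_mul_of_pos_right _ hz1)
  have hf := factor (r := r' + 1) hQ hQr hts (Nat.one_le_pow _ _ (by omega))
  rw [hy]
  refine ⟨hf, ?_⟩
  intro hp
  -- the number exceeds both factors
  have hbig : s * (E * z) + t < s ^ 2 * ∑ i ∈ range (r' + 1), (B ^ (2 * (2 * h + 1))) ^ i + 1 := by
    have h1 : z ≤ ∑ i ∈ range (r' + 1), (B ^ (2 * (2 * h + 1))) ^ i := by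
      have h2 : (B ^ (2 * (2 * h + 1))) ^ r' ≤
          ∑ i ∈ range (r' + 1), (B ^ (2 * (2 * h + 1))) ^ i :=
        single_le_sum (f := fun i => (B ^ (2 * (2 * h + 1))) ^ i) (fun _ _ => Nat.zero_le _)
          (mem_range.2 (Nat.lt_succ_self r'))
      refine le_trans ?_ h2
      rw [hz, ← pow_mul]
      exact Nat.pow_le_pow_right (by omega) (by nlinarith)
    have h3 : s ^ 2 * z ≤ s ^ 2 * ∑ i ∈ range (r' + 1), (B ^ (2 * (2 * h + 1))) ^ i :=
      Nat.mul_le_mul_left _ h1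
    have h4 : s * (E * z) + t < s ^ 2 * z := by
      have e1 : s ^ 2 * z = s * (E * z) + s * (s - E) * z := by
        have : s = E + (s - E) := by omega
        calc s ^ 2 * z = s * (E + (s - E)) * z := by rw [← this]; ring
          _ = _ := by ring
      rw [e1]
      have : s * (s - E) ≤ s * (s - E) * z := Nat.le_mul_of_pos_right _ hz1
      omega
    omega
  have hd : (s ^ 2 * ∑ i ∈ range (r' + 1), (B ^ (2 * (2 * h + 1))) ^ i + 1) ∣
      (s * (E * z) - t) * (s * (E * z) + t) := ⟨_, by rw [← hf]; ring⟩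
  have hlt : t < s * (E * z) := by
    have h1 : s * (s - E) ≤ s * E := by
      apply Nat.mul_le_mul_left
      have := four_sd (h := h) hB
      rw [← hs, ← hE] at this
      omega
    calc t < s * (s - E) := hst
      _ ≤ s * E := h1
      _ ≤ s * (E * z) := Nat.mul_le_mul_left _ (Nat.le_mul_of_pos_right _ hz1)
  rcases (Nat.Prime.dvd_mul hp).1 hd with h1 | h1
  · have := Nat.le_of_dvd (by omega) h1
    omega
  · have := Nat.le_of_dvd (by omega) h1
    omega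

/-- The number `n`, for `B = b ^ (j + 1)`. -/
def num (b j h : ℕ) : ℕ := b ^ (2 * j + 1) * ((b ^ (j + 1)) ^ (2 * h) + 2 * G (b ^ (j + 1)) h) ^ 2

lemma b_num (b j h : ℕ) : b * num b j h = sd (b ^ (j + 1)) h ^ 2 := by
  unfold num sd
  rw [mul_pow, ← mul_assoc, ← pow_mul]
  congr 1
  ring

section digits

variable {b j h : ℕ}

lemma pow_lt_num (hB : 3 ≤ b ^ (j + 1)) (hh : 1 ≤ h) :
    b ^ (2 * ((j + 1) * (2 * h + 1)) - 1) < num b j h := by
  have h1 := sd_gt hB hh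
  have h2 : (b ^ (j + 1)) ^ (2 * h + 1) * (b ^ (j + 1)) ^ (2 * h + 1) <
      sd (b ^ (j + 1)) h * sd (b ^ (j + 1)) h := Nat.mul_lt_mul'' h1 h1
  have h3 : b * b ^ (2 * ((j + 1) * (2 * h + 1)) - 1) =
      (b ^ (j + 1)) ^ (2 * h + 1) * (b ^ (j + 1)) ^ (2 * h + 1) := by
    rw [← pow_succ', ← pow_mul, ← pow_add]
    congr 1
    have : 1 ≤ 2 * ((j + 1) * (2 * h + 1)) := by nlinarith
    omega
  have h4 := b_num b j h
  have h5 : b * b ^ (2 * ((j + 1) * (2 * h + 1)) - 1) < b * num b j h := by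
    rw [h3, h4, sq]
    exact h2
  exact lt_of_mul_lt_mul_left h5 (Nat.zero_le b)

lemma num_lt_pow (hb : 2 ≤ b) (hB : 3 ≤ b ^ (j + 1)) :
    num b j h < b ^ (2 * ((j + 1) * (2 * h + 1))) := by
  have h1 := four_sd (h := h) hB
  have h4 := b_num b j h
  have h2 : 16 * sd (b ^ (j + 1)) h ^ 2 ≤ 25 * ((b ^ (j + 1)) ^ (2 * h + 1)) ^ 2 := by
    have := Nat.pow_le_pow_left h1 2
    nlinarith
  have h3 : ((b ^ (j + 1)) ^ (2 * h + 1)) ^ 2 = b ^ (2 * ((j + 1) * (2 * h + 1))) := by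
    rw [← pow_mul, ← pow_mul]
    congr 1
    ring
  rw [h3, ← h4] at h2
  have h5 : 1 ≤ b ^ (2 * ((j + 1) * (2 * h + 1))) := Nat.one_le_pow _ _ (by omega)
  generalize b ^ (2 * ((j + 1) * (2 * h + 1))) = X at *
  by_contra hcon
  rw [not_lt] at hcon
  have h6 : b * X ≤ b * num b j h := Nat.mul_le_mul_left b hcon
  have h7 : 2 * X ≤ b * X := Nat.mul_le_mul_right X hb
  omega

lemma length_num (hb : 2 ≤ b) (hB : 3 ≤ b ^ (j + 1)) (hh : 1 ≤ h) :
    (Nat.digits b (num b j h)).length = 2 * ((j + 1) * (2 * h + 1)) := by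
  have h1 := pow_lt_num hB hh
  have h2 := num_lt_pow (h := h) hb hB
  have h0 : num b j h ≠ 0 := by omega
  rw [Nat.length_digits b _ (by omega) h0]
  have h3 : 1 ≤ 2 * ((j + 1) * (2 * h + 1)) := by nlinarith
  have h4 : Nat.log b (num b j h) = 2 * ((j + 1) * (2 * h + 1)) - 1 := by
    rw [Nat.log_eq_iff (Or.inr ⟨by omega, h0⟩)]
    refine ⟨h1.le, ?_⟩
    rwa [Nat.sub_add_cancel h3]
  omega

lemma num_ne_pow (hb : 2 ≤ b) (hB : 3 ≤ b ^ (j + 1)) (hh : 1 ≤ h) (k : ℕ) :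
    num b j h ≠ b ^ k := by
  have h1 := pow_lt_num hB hh
  have h2 := num_lt_pow (h := h) hb hB
  intro e
  rw [e] at h1 h2
  have h3 := (Nat.pow_lt_pow_iff_right (by omega)).1 h1
  have h4 := (Nat.pow_lt_pow_iff_right (by omega)).1 h2
  omega

lemma N_num (hb : 2 ≤ b) (hB : 3 ≤ b ^ (j + 1)) (hh : 1 ≤ h) (r : ℕ) :
    N b (num b j h) r =
      sd (b ^ (j + 1)) h ^ 2 * ∑ i ∈ range r, ((b ^ (j + 1)) ^ (2 * (2 * h + 1))) ^ i + 1 := by
  unfold N C
  rw [length_num hb hB hh, ← mul_assoc, b_num]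
  congr 2
  apply sum_congr rfl
  intro i _
  rw [← pow_mul, ← pow_mul]
  congr 1
  ring

lemma gcd_dvd (B h : ℕ) (hB : 1 ≤ B) : Nat.gcd (sd B h) (td B h) ∣ 2 * h + 1 := by
  set g := Nat.gcd (sd B h) (td B h) with hg
  have h1 : g ∣ sd B h := Nat.gcd_dvd_left _ _
  have h2 : g ∣ td B h := Nat.gcd_dvd_right _ _
  have hc : Nat.Coprime g B := by
    have e : Nat.Coprime (td B h) B := by
      have : td B h = 1 + (2 * B * G B h) * B := by unfold td; ring
      rw [this]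
      simp
    exact Nat.Coprime.coprime_dvd_left h2 e
  have h3 : g ∣ B ^ (2 * h) + 2 * G B h := by
    unfold sd at h1
    exact hc.dvd_of_dvd_mul_left h1
  obtain ⟨q, hq⟩ := G_mod B h hB
  have hB2 : 1 ≤ B ^ 2 := Nat.one_le_pow _ _ hB
  have g0 := geo B h
  have h4 : (g : ℤ) ∣ 1 + 2 * (G B h : ℤ) := by
    have a1 : (g : ℤ) ∣ ((B ^ (2 * h) + 2 * G B h : ℕ) : ℤ) := Int.natCast_dvd_natCast.2 h3
    have a2 : (g : ℤ) ∣ ((td B h : ℕ) : ℤ) := Int.natCast_dvd_natCast.2 h2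
    have a3 : (1 + 2 * (G B h : ℤ)) =
        2 * ((B ^ (2 * h) + 2 * G B h : ℕ) : ℤ) - ((td B h : ℕ) : ℤ) := by
      unfold td
      push_cast
      zify at g0
      linear_combination (2 : ℤ) * g0
    rw [a3]
    exact dvd_sub (Dvd.dvd.mul_left a1 2) a2
  have h5 : (g : ℤ) ∣ 1 - (B : ℤ) ^ 2 := by
    have a2 : (g : ℤ) ∣ ((td B h : ℕ) : ℤ) := Int.natCast_dvd_natCast.2 h2
    have a3 : 1 - (B : ℤ) ^ 2 = ((td B h : ℕ) : ℤ) - (B : ℤ) ^ 2 * (1 + 2 * (G B h : ℤ)) := by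
      unfold td
      push_cast
      ring
    rw [a3]
    exact dvd_sub a2 (Dvd.dvd.mul_left h4 _)
  have h6 : (g : ℤ) ∣ ((2 * h + 1 : ℕ) : ℤ) := by
    have a3 : ((2 * h + 1 : ℕ) : ℤ) = (1 + 2 * (G B h : ℤ)) + (1 - (B : ℤ) ^ 2) * (2 * q) := by
      rw [hq]
      push_cast [Nat.cast_sub hB2]
      ring
    rw [a3]
    exact dvd_add h4 (Dvd.dvd.mul_right h5 _)
  exact Int.natCast_dvd_natCast.1 h6

lemma sq_lt_three_pow {h : ℕ} (hh : 1 ≤ h) : (2 * h + 1) ^ 2 < 3 ^ (2 * h + 1) := by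
  induction h, hh using Nat.le_induction with
  | base => norm_num
  | succ h hh ih =>
    have e : 3 ^ (2 * (h + 1) + 1) = 9 * 3 ^ (2 * h + 1) := by ring
    rw [e]
    nlinarith

lemma aperiodic (hb : 2 ≤ b) (hB : 3 ≤ b ^ (j + 1)) (hh : 1 ≤ h) : Aperiodic b (num b j h) := by
  intro w k hk e
  have hlo := pow_lt_num hB hh
  have hhi := num_lt_pow (h := h) hb hB
  have hbn := b_num b j h
  set n := num b j h with hn
  set L := 2 * ((j + 1) * (2 * h + 1)) with hL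
  set B := b ^ (j + 1) with hBd
  have hL1 : 1 ≤ L := by nlinarith
  unfold C at e
  set l := (Nat.digits b w).length with hl
  set D := ∑ i ∈ range k, b ^ (l * i) with hD
  have hw : w ≠ 0 := by
    rintro rfl
    rw [zero_mul] at e
    omega
  have hD' : D = ∑ i ∈ range k, (b ^ l) ^ i := by
    rw [hD]
    exact sum_congr rfl fun i _ => pow_mul b l i
  have hg : b ^ l * D + 1 = b ^ (l * k) + D := by
    have := geomQ (b ^ l) k
    rw [← hD', ← pow_mul] at this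
    exact this
  have hw1 : w < b ^ l := Nat.lt_base_pow_length_digits (by omega)
  have hw2 : b ^ l ≤ b * w := Nat.base_pow_length_digits_le b w (by omega) hw
  have hn1 : n < b ^ (l * k) := by
    have h1 : (w + 1) * D ≤ b ^ l * D := Nat.mul_le_mul_right D hw1
    have h2 : (w + 1) * D = n + D := by rw [e]; ring
    omega
  have hn2 : b ^ (l * k) ≤ b * n := by
    have hD1 : 1 ≤ D := by
      by_contra hcon
      have : D = 0 := by omega
      rw [this, mul_zero] at e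
      omega
    have h1 : b ^ l * D ≤ b * w * D := Nat.mul_le_mul_right D hw2
    have h2 : b * w * D = b * n := by rw [e]; ring
    omega
  have hlk : l * k = L := by
    have h1 : b ^ (L - 1) < b ^ (l * k) := hlo.trans hn1
    have h2 : L - 1 < l * k := (Nat.pow_lt_pow_iff_right (by omega)).1 h1
    have h3 : b ^ (l * k) < b ^ (L + 1) := by
      calc b ^ (l * k) ≤ b * n := hn2
        _ < b * b ^ L := Nat.mul_lt_mul_of_pos_left hhi (by omega)
        _ = b ^ (L + 1) := (pow_succ' b L).symm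
    have h4 : l * k < L + 1 := (Nat.pow_lt_pow_iff_right (by omega)).1 h3
    omega
  have hBL : B ^ (2 * (2 * h + 1)) = b ^ L := by
    rw [hBd, hL, ← pow_mul]
    congr 1
    ring
  have hsq := squares B h
  rw [hBL] at hsq
  have hDs : D ∣ sd B h ^ 2 := by
    rw [← hbn, e]
    exact ⟨b * w, by ring⟩
  have hDt : D ∣ td B h ^ 2 := by
    have hbl : 1 ≤ b ^ l := Nat.one_le_pow _ _ (by omega)
    have h1 : D * (b ^ l - 1) + 1 = b ^ L := by
      rw [← hlk]
      have : D * (b ^ l - 1) + D = b ^ l * D := by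
        obtain ⟨c, hc⟩ := Nat.exists_eq_add_of_le' hbl
        rw [hc, Nat.add_sub_cancel]
        ring
      omega
    have h2 : sd B h ^ 2 = td B h ^ 2 + D * (b ^ l - 1) := by omega
    rw [h2] at hDs
    exact (Nat.dvd_add_left (Dvd.intro _ rfl)).1 hDs
  have hDg : D ∣ (Nat.gcd (sd B h) (td B h)) ^ 2 := by
    have h1 : Nat.gcd (sd B h ^ 2) (td B h ^ 2) = (Nat.gcd (sd B h) (td B h)) ^ 2 := by
      exact Nat.pow_gcd_pow
    rw [← h1]
    exact Nat.dvd_gcd hDs hDt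
  have hgo : Nat.gcd (sd B h) (td B h) ≤ 2 * h + 1 :=
    Nat.le_of_dvd (by omega) (gcd_dvd B h (by omega))
  have hDle : D ≤ (2 * h + 1) ^ 2 := by
    have h1 : 0 < (Nat.gcd (sd B h) (td B h)) ^ 2 := by
      have : 0 < td B h := by unfold td; omega
      exact Nat.pow_pos (Nat.gcd_pos_of_pos_right _ this)
    exact (Nat.le_of_dvd h1 hDg).trans (Nat.pow_le_pow_left hgo 2)
  have hDge : B ^ (2 * h + 1) ≤ D := by
    have h1 : b ^ (l * (k - 1)) ≤ D :=
      single_le_sum (f := fun i => b ^ (l * i)) (fun _ _ => Nat.zero_le _)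
        (mem_range.2 (by omega))
    refine le_trans ?_ h1
    rw [hBd, ← pow_mul]
    apply Nat.pow_le_pow_right (by omega)
    obtain ⟨k', rfl⟩ := Nat.exists_eq_add_of_le' hk
    have h2 : l * (k' + 2) = 2 * ((j + 1) * (2 * h + 1)) := by rw [hlk]
    have h3 : k' + 2 - 1 = k' + 1 := by omega
    rw [h3]
    have h4 : 2 * (l * (k' + 1)) = l * (k' + 2) + l * k' := by ring
    have h5 : 0 ≤ l * k' := Nat.zero_le _
    omega
  have h3 : 3 ^ (2 * h + 1) ≤ B ^ (2 * h + 1) := Nat.pow_le_pow_left hB _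
  have h4 := sq_lt_three_pow hh
  omega

end digits

lemma main {b j h : ℕ} (hb : 2 ≤ b) (hj : 1 ≤ j) (hB : 3 ≤ b ^ j) (hh : 1 ≤ h) :
    ∃ n s t : ℕ,
      s = (b ^ j) ^ (2 * h + 1) + 2 * b ^ j * ∑ i ∈ range h, (b ^ j) ^ (2 * i) ∧
      t = 1 + 2 * (b ^ j) ^ 2 * ∑ i ∈ range h, (b ^ j) ^ (2 * i) ∧
      b * n = s ^ 2 ∧ (Nat.digits b n).length = 2 * (j * (2 * h + 1)) ∧
      (∀ k : ℕ, n ≠ b ^ k) ∧ Aperiodic b n ∧
      ∀ r : ℕ, 1 ≤ r →
        (b ^ (2 * (j * (2 * h + 1))) - 1) * N b n r =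
          (s * b ^ (j * (2 * h + 1) * r) - t) * (s * b ^ (j * (2 * h + 1) * r) + t) ∧
        1 < N b n r ∧ ¬ (N b n r).Prime := by
  obtain ⟨j', rfl⟩ := Nat.exists_eq_add_of_le' hj
  refine ⟨num b j' h, sd (b ^ (j' + 1)) h, td (b ^ (j' + 1)) h, sd_eq _ _, rfl, b_num _ _ _,
    length_num hb hB hh, num_ne_pow hb hB hh, aperiodic hb hB hh, ?_⟩
  intro r hr
  have h1 := composite (r := r) hB hh hr
  have h2 := N_num hb hB hh r
  have e1 : (b ^ (j' + 1)) ^ (2 * (2 * h + 1)) = b ^ (2 * ((j' + 1) * (2 * h + 1))) := by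
    rw [← pow_mul]; congr 1; ring
  have e2 : (b ^ (j' + 1)) ^ ((2 * h + 1) * r) = b ^ ((j' + 1) * (2 * h + 1) * r) := by
    rw [← pow_mul]; congr 1; ring
  rw [← h2, e1, e2] at h1
  refine ⟨h1.1, ?_, h1.2⟩
  have h3 : N b (num b j' h) r ≠ 1 := by
    rw [h2]
    have h4 : 0 < sd (b ^ (j' + 1)) h := by
      have := sd_gt hB hh
      omega
    have h5 : 1 ≤ ∑ i ∈ range r, ((b ^ (j' + 1)) ^ (2 * (2 * h + 1))) ^ i := by
      have := single_le_sum (f := fun i => ((b ^ (j' + 1)) ^ (2 * (2 * h + 1))) ^ i)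
        (fun _ _ => Nat.zero_le _) (mem_range.2 (show 0 < r by omega))
      simpa using this
    have h6 : 0 < sd (b ^ (j' + 1)) h ^ 2 *
        ∑ i ∈ range r, ((b ^ (j' + 1)) ^ (2 * (2 * h + 1))) ^ i := by positivity
    omega
  have h4 : 1 ≤ N b (num b j' h) r := by unfold N; omega
  omega

/-- **Theorem.** `C b w k` is the number with expansion `w w ... w` (`k` times) in base `b`, and
`N b n r = b * C b n r + 1` is `n n ... n 1`. -/
theorem result :
    -- (1) an explicit family in every base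
    (∀ b j h : ℕ, 2 ≤ b → 1 ≤ j → 3 ≤ b ^ j → 1 ≤ h → ∃ n s t : ℕ,
      s = (b ^ j) ^ (2 * h + 1) + 2 * b ^ j * ∑ i ∈ range h, (b ^ j) ^ (2 * i) ∧
      t = 1 + 2 * (b ^ j) ^ 2 * ∑ i ∈ range h, (b ^ j) ^ (2 * i) ∧
      b * n = s ^ 2 ∧ (Nat.digits b n).length = 2 * (j * (2 * h + 1)) ∧
      (∀ k : ℕ, n ≠ b ^ k) ∧ Aperiodic b n ∧
      ∀ r : ℕ, 1 ≤ r →
        (b ^ (2 * (j * (2 * h + 1))) - 1) * N b n r =
          (s * b ^ (j * (2 * h + 1) * r) - t) * (s * b ^ (j * (2 * h + 1) * r) + t) ∧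
        1 < N b n r ∧ ¬ (N b n r).Prime) ∧
    -- (2) base `b ≥ 3`: every number `2 m` of digits such that `m` is not a power of two
    (∀ b m : ℕ, 3 ≤ b → 1 ≤ m → (∀ k : ℕ, m ≠ 2 ^ k) → ∃ n : ℕ,
      (Nat.digits b n).length = 2 * m ∧ (∀ k : ℕ, n ≠ b ^ k) ∧ Aperiodic b n ∧
      ∀ r : ℕ, 1 ≤ r → 1 < N b n r ∧ ¬ (N b n r).Prime) ∧
    -- (3) every base: infinitely many
    (∀ b : ℕ, 2 ≤ b → {n : ℕ | (∀ k : ℕ, n ≠ b ^ k) ∧ Aperiodic b n ∧
      ∀ r : ℕ, 1 ≤ r → 1 < N b n r ∧ ¬ (N b n r).Prime}.Infinite) ∧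
    -- (4) the question: base `10`
    (∃ n : ℕ, 0 < n ∧ (∀ m : ℕ, n ≠ 10 ^ m) ∧
      ∀ r : ℕ, 1 ≤ r → 1 < N 10 n r ∧ ¬ (N 10 n r).Prime) := by
  refine ⟨fun b j h hb hj hB hh => main hb hj hB hh, ?_, ?_, ?_⟩
  · intro b m hb hm hk
    -- an odd divisor
    obtain ⟨k, o, ho, e⟩ := Nat.exists_eq_two_pow_mul_odd (n := m) (by omega)
    obtain ⟨h, rfl⟩ := ho
    have hh : 1 ≤ h := by
      by_contra hcon
      have : h = 0 := by omega
      subst this
      exact hk k (by rw [e]; ring)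
    have hj : 1 ≤ 2 ^ k := Nat.one_le_pow _ _ (by norm_num)
    have hB : 3 ≤ b ^ 2 ^ k := by
      calc 3 ≤ b := hb
        _ = b ^ 1 := (pow_one b).symm
        _ ≤ b ^ 2 ^ k := Nat.pow_le_pow_right (by omega) hj
    obtain ⟨n, s, t, _, _, _, h4, h5, h6, h7⟩ := main (b := b) (by omega) hj hB hh
    exact ⟨n, by rw [h4, e], h5, h6, fun r hr => (h7 r hr).2⟩
  · intro b hb
    have key : ∀ j : ℕ, ∃ n : ℕ, (Nat.digits b n).length = 2 * ((j + 2) * (2 * 1 + 1)) ∧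
        (∀ k : ℕ, n ≠ b ^ k) ∧ Aperiodic b n ∧
        ∀ r : ℕ, 1 ≤ r → 1 < N b n r ∧ ¬ (N b n r).Prime := by
      intro j
      have hB : 3 ≤ b ^ (j + 2) := by
        have h1 : b ^ 2 ≤ b ^ (j + 2) := Nat.pow_le_pow_right (by omega) (by omega)
        nlinarith
      obtain ⟨n, s, t, _, _, _, h4, h5, h6, h7⟩ :=
        main (b := b) (j := j + 2) (h := 1) hb (by omega) hB le_rfl
      exact ⟨n, h4, h5, h6, fun r hr => (h7 r hr).2⟩
    choose f hf using key
    refine Set.infinite_of_injective_forall_mem (f := f) ?_ (fun j => (hf j).2)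
    intro i j hij
    have h1 := (hf i).1
    have h2 := (hf j).1
    have hij' : f i = f j := hij
    rw [hij'] at h1
    omega
  · obtain ⟨n, s, t, h1, _, h3, _, h5, _, h7⟩ :=
      main (b := 10) (j := 1) (h := 1) (by norm_num) le_rfl (by norm_num) le_rfl
    refine ⟨n, ?_, h5, fun r hr => (h7 r hr).2⟩
    by_contra hcon
    have hn : n = 0 := by omega
    rw [hn, h1] at h3
    norm_num at h3

end Pool.Agent.Results.MP_842c30_nt.EveryBase
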